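import Mathlib

/-!
# Every Frechet C-selective space is strongly C-selective

We answer Q1 of `MP_f865b7_gt` (Feng, Gruenhage, Shen) in the negative, in ZFC:
there is no Frechet C-selective space that fails to be strongly C-selective.
All spaces are `T₁`; regular is not required of the range.
-/

namespace Pool.Agent.Results.MP_f865b7_gt.FrechetCSelective

open Set Filter Topology

set_option linter.unusedSectionVars false

universe u v w

/-- A set-valued map `φ : Y → Set X` is lower semicontinuous if for each open `U` of `X` the set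
of `y` with `φ y ∩ U ≠ ∅` is open. -/
def LSC {Y : Type v} {X : Type u} [TopologicalSpace Y] [TopologicalSpace X]
    (φ : Y → Set X) : Prop :=
  ∀ U : Set X, IsOpen U → IsOpen {y | (φ y ∩ U).Nonempty}

/-- `X` is `Y`-selective: each l.s.c. map from `Y` to the nonempty closed subsets of `X` has a
continuous selection. -/
def Selective (Y : Type v) (X : Type u) [TopologicalSpace Y] [TopologicalSpace X] : Prop :=
  ∀ φ : Y → Set X, (∀ y, (φ y).Nonempty) → (∀ y, IsClosed (φ y)) → LSC φ →
    ∃ f : Y → X, Continuous f ∧ ∀ y, f y ∈ φ y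

/-- `X` is strongly `Y`-selective: each l.s.c. map from `Y` to the nonempty subsets of `X` has a
continuous selection. -/
def StronglySelective (Y : Type v) (X : Type u) [TopologicalSpace Y] [TopologicalSpace X] :
    Prop :=
  ∀ φ : Y → Set X, (∀ y, (φ y).Nonempty) → LSC φ →
    ∃ f : Y → X, Continuous f ∧ ∀ y, f y ∈ φ y

/-- `X` is C-selective: it is `Y`-selective for every countable regular (`T₁`) space `Y`. -/
def CSelective (X : Type u) [TopologicalSpace X] : Prop :=
  ∀ (Y : Type v) [TopologicalSpace Y] [T1Space Y] [RegularSpace Y] [Countable Y], Selective Y X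

/-- `X` is strongly C-selective: it is strongly `Y`-selective for every countable regular (`T₁`)
space `Y`. -/
def StronglyCSelective (X : Type u) [TopologicalSpace X] : Prop :=
  ∀ (Y : Type v) [TopologicalSpace Y] [T1Space Y] [RegularSpace Y] [Countable Y],
    StronglySelective Y X

/-! ## The universe of the countable spaces does not matter -/

section universes

variable {X : Type u} [TopologicalSpace X]

lemma Selective.of_homeomorph {Y : Type v} {Z : Type w} [TopologicalSpace Y] [TopologicalSpace Z]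
    (e : Y ≃ₜ Z) (h : Selective Z X) : Selective Y X := by
  intro φ h1 h2 h3
  obtain ⟨f, hf, hfφ⟩ := h (fun z => φ (e.symm z)) (fun z => h1 _) (fun z => h2 _)
    (fun U hU => (h3 U hU).preimage e.symm.continuous)
  refine ⟨fun y => f (e y), hf.comp e.continuous, fun y => ?_⟩
  have := hfφ (e y)
  rwa [e.symm_apply_apply] at this

lemma StronglySelective.of_homeomorph {Y : Type v} {Z : Type w} [TopologicalSpace Y]
    [TopologicalSpace Z] (e : Y ≃ₜ Z) (h : StronglySelective Z X) : StronglySelective Y X := by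
  intro φ h1 h3
  obtain ⟨f, hf, hfφ⟩ := h (fun z => φ (e.symm z)) (fun z => h1 _)
    (fun U hU => (h3 U hU).preimage e.symm.continuous)
  refine ⟨fun y => f (e y), hf.comp e.continuous, fun y => ?_⟩
  have := hfφ (e y)
  rwa [e.symm_apply_apply] at this

lemma CSelective.down (h : CSelective.{u, v} X) : CSelective.{u, 0} X := by
  intro Y _ _ _ _
  have h1 : T1Space (ULift.{v} Y) := Homeomorph.ulift.isEmbedding.t1Space
  have h2 : RegularSpace (ULift.{v} Y) := Homeomorph.ulift.isEmbedding.isInducing.regularSpace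
  exact Selective.of_homeomorph Homeomorph.ulift.symm (h (ULift.{v} Y))

lemma StronglyCSelective.up (h : StronglyCSelective.{u, 0} X) : StronglyCSelective.{u, w} X := by
  intro Y _ _ _ _
  have hs : Small.{0} Y := inferInstance
  let e : Y ≃ₜ Shrink.{0, w} Y := Shrink.homeomorph Y
  have h1 : T1Space (Shrink.{0} Y) := e.symm.isEmbedding.t1Space
  have h2 : RegularSpace (Shrink.{0} Y) := e.symm.isEmbedding.isInducing.regularSpace
  have h3 : Countable (Shrink.{0} Y) := e.symm.injective.countable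
  exact StronglySelective.of_homeomorph e (h (Shrink.{0} Y))

end universes

/-! ## Basic facts on l.s.c. maps -/

section basic

variable {Y : Type} {X : Type u} [TopologicalSpace Y] [TopologicalSpace X]

lemma lsc_closure {φ : Y → Set X} (h : LSC φ) : LSC (fun y => closure (φ y)) := by
  intro U hU
  have : {y | (closure (φ y) ∩ U).Nonempty} = {y | (φ y ∩ U).Nonempty} := by
    ext y
    constructor
    · rintro ⟨x, hx, hxU⟩
      obtain ⟨z, hzU, hz⟩ := mem_closure_iff.1 hx U hU hxU
      exact ⟨z, hz, hzU⟩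
    · rintro ⟨x, hx, hxU⟩
      exact ⟨x, subset_closure hx, hxU⟩
  rw [this]
  exact h U hU

/-- Through each point `a` of `closure (φ y)` there passes a continuous selection of the closure
of `φ`. -/
lemma exists_sel_through [T1Space Y] [T1Space X] (hS : Selective Y X) {φ : Y → Set X}
    (hne : ∀ y, (φ y).Nonempty) (h : LSC φ) (y : Y) (a : X) (ha : a ∈ closure (φ y)) :
    ∃ g : Y → X, Continuous g ∧ (∀ w, g w ∈ closure (φ w)) ∧ g y = a := by
  classical
  let ψ : Y → Set X := fun w => if w = y then {a} else closure (φ w)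
  have hψy : ψ y = {a} := by simp [ψ]
  have hψ : ∀ w, w ≠ y → ψ w = closure (φ w) := fun w hw => by simp [ψ, hw]
  have h1 : ∀ w, (ψ w).Nonempty := by
    intro w
    by_cases hw : w = y
    · subst hw; rw [hψy]; exact singleton_nonempty a
    · rw [hψ w hw]; exact (hne w).mono subset_closure
  have h2 : ∀ w, IsClosed (ψ w) := by
    intro w
    by_cases hw : w = y
    · subst hw; rw [hψy]; exact isClosed_singleton
    · rw [hψ w hw]; exact isClosed_closure
  have h3 : LSC ψ := by
    intro U hU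
    have hcl := lsc_closure h U hU
    by_cases haU : a ∈ U
    · have : {w | (ψ w ∩ U).Nonempty} = {w | (closure (φ w) ∩ U).Nonempty} := by
        ext w
        by_cases hw : w = y
        · subst hw
          simp only [mem_ofPred_eq, hψy]
          exact ⟨fun _ => ⟨a, ha, haU⟩, fun _ => ⟨a, rfl, haU⟩⟩
        · simp only [mem_ofPred_eq, hψ w hw]
      rw [this]; exact hcl
    · have : {w | (ψ w ∩ U).Nonempty} = {w | (closure (φ w) ∩ U).Nonempty} \ {y} := by
        ext w
        by_cases hw : w = y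
        · subst hw
          simp only [mem_ofPred_eq, hψy, Set.mem_sdiff, mem_singleton_iff, not_true_eq_false, and_false,
            iff_false]
          rintro ⟨x, hx, hxU⟩
          rw [mem_singleton_iff] at hx
          exact haU (hx ▸ hxU)
        · simp only [mem_ofPred_eq, hψ w hw, Set.mem_sdiff, mem_singleton_iff, hw, not_false_eq_true,
            and_true]
      rw [this]; exact hcl.sdiff isClosed_singleton
  obtain ⟨g, hg, hgψ⟩ := hS ψ h1 h2 h3
  refine ⟨g, hg, fun w => ?_, ?_⟩
  · by_cases hw : w = y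
    · subst hw
      have := hgψ w
      rw [hψy, mem_singleton_iff] at this
      rw [this]; exact ha
    · have := hgψ w
      rwa [hψ w hw] at this
  · have := hgψ y
    rwa [hψy, mem_singleton_iff] at this

/-- Countable regular `T₁` spaces have a base of clopen sets. -/
lemma exists_clopen [T1Space Y] [RegularSpace Y] [Countable Y] (y : Y) (U : Set Y)
    (hU : IsOpen U) (hy : y ∈ U) : ∃ V : Set Y, IsClopen V ∧ y ∈ V ∧ V ⊆ U := by
  obtain ⟨f, hf0, hf1, hf⟩ := exists_continuous_zero_one_of_isClosed (isClosed_singleton (x := y))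
    hU.isClosed_compl (by
      rw [disjoint_singleton_left]; exact fun h => h hy)
  have hcount : (range f).Countable := countable_range f
  obtain ⟨r, ⟨hr0, hr1⟩, hr⟩ : ∃ r ∈ Ioo (0 : ℝ) 1, r ∉ range f := by
    by_contra hcon
    push Not at hcon
    have hsub : Ioo (0 : ℝ) 1 ⊆ range f := fun r hr => hcon r hr
    have h1 := Cardinal.mk_Ioo_real (show (0 : ℝ) < 1 by norm_num)
    have h2 := (hcount.mono hsub).le_aleph0
    rw [h1] at h2
    exact absurd h2 (not_le.2 Cardinal.aleph0_lt_continuum)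
  refine ⟨f ⁻¹' Iio r, ⟨?_, isOpen_Iio.preimage f.continuous⟩, ?_, ?_⟩
  · have : f ⁻¹' Iio r = f ⁻¹' Iic r := by
      ext w
      simp only [mem_preimage, mem_Iio, mem_Iic]
      refine ⟨le_of_lt, fun h => lt_of_le_of_ne h ?_⟩
      rintro rfl
      exact hr ⟨w, rfl⟩
    rw [this]
    exact isClosed_Iic.preimage f.continuous
  · have : f y = 0 := hf0 rfl
    simp only [mem_preimage, mem_Iio, this]; exact hr0
  · intro w hw
    by_contra hwU
    have : f w = 1 := hf1 hwU
    simp only [mem_preimage, mem_Iio, this] at hw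
    exact absurd hw (not_lt.2 hr1.le)

end basic


/-! ## The property `α₁` -/

section alpha

variable {X : Type u} [TopologicalSpace X] [T1Space X] [FrechetUrysohnSpace X]

/-- Countably many sequences converging to `x` can be thinned by finite sets so that their union
converges to `x` (Arhangelskii's property `α₁`); this uses selections on one convergent
sequence only. -/
lemma alpha_one_nat (hC : CSelective.{u, 0} X) (x : X) (σ : ℕ → ℕ → X)
    (hσ : ∀ e, Tendsto (σ e) atTop (𝓝 x)) :
    ∃ N : ℕ → ℕ, ∀ U : Set X, IsOpen U → x ∈ U →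
      {p : ℕ × ℕ | N p.1 ≤ p.2 ∧ σ p.1 p.2 ∉ U}.Finite := by
  classical
  by_cases hx : IsOpen ({x} : Set X)
  · -- `x` isolated
    have : ∀ e, ∃ N : ℕ, ∀ n ≥ N, σ e n ∈ ({x} : Set X) := fun e =>
      eventually_atTop.1 ((hσ e).eventually (hx.mem_nhds rfl))
    choose N hN using this
    refine ⟨N, fun U hU hxU => ?_⟩
    have : {p : ℕ × ℕ | N p.1 ≤ p.2 ∧ σ p.1 p.2 ∉ U} = ∅ := by
      ext p
      simp only [mem_ofPred_eq, mem_empty_iff_false, iff_false, not_and, not_not]
      intro hp
      have := hN p.1 p.2 hp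
      rw [mem_singleton_iff] at this
      rw [this]; exact hxU
    rw [this]; exact finite_empty
  · -- `x` is not isolated: take a sequence of points different from `x` converging to `x`
    have hcl : x ∈ closure ({x}ᶜ : Set X) := by
      rw [mem_closure_iff]
      intro O hO hxO
      by_contra hcon
      rw [not_nonempty_iff_eq_empty] at hcon
      apply hx
      have : O = {x} := by
        ext z
        constructor
        · intro hz
          by_contra hzx
          have : z ∈ O ∩ {x}ᶜ := ⟨hz, hzx⟩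
          rw [hcon] at this
          exact this
        · rintro rfl; exact hxO
      rw [← this]; exact hO
    obtain ⟨s, hs, hsx⟩ := mem_closure_iff_seq_limit.1 hcl
    let Φ : OnePoint (ℕ × ℕ) → Set X := fun o => o.elim {x} (fun p => {σ p.1 p.2, s p.1})
    have hΦinf : Φ OnePoint.infty = {x} := rfl
    have hΦ : ∀ p : ℕ × ℕ, Φ (p : OnePoint (ℕ × ℕ)) = {σ p.1 p.2, s p.1} := fun p => rfl
    have : Countable (OnePoint (ℕ × ℕ)) := inferInstanceAs (Countable (Option (ℕ × ℕ)))
    have h1 : ∀ o, (Φ o).Nonempty := by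
      intro o
      induction o using OnePoint.rec with
      | infty => rw [hΦinf]; exact singleton_nonempty x
      | coe p => rw [hΦ]; exact ⟨_, mem_insert _ _⟩
    have h2 : ∀ o, IsClosed (Φ o) := by
      intro o
      induction o using OnePoint.rec with
      | infty => rw [hΦinf]; exact isClosed_singleton
      | coe p => rw [hΦ]; exact (Set.toFinite _).isClosed
    have h3 : LSC Φ := by
      intro U hU
      by_cases hxU : x ∈ U
      · rw [OnePoint.isOpen_iff_of_mem (show OnePoint.infty ∈ {y | (Φ y ∩ U).Nonempty} from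
          ⟨x, by rw [hΦinf]; rfl, hxU⟩)]
        refine ⟨isClosed_discrete _, ?_⟩
        rw [isCompact_iff_finite]
        have hfin1 : {e : ℕ | s e ∉ U}.Finite := by
          have := hsx.eventually (hU.mem_nhds hxU)
          rw [← Nat.cofinite_eq_atTop] at this
          exact this
        have hfin2 : ∀ e, {n : ℕ | σ e n ∉ U}.Finite := by
          intro e
          have := (hσ e).eventually (hU.mem_nhds hxU)
          rw [← Nat.cofinite_eq_atTop] at this
          exact this
        have hsub : ((↑) ⁻¹' {y | (Φ y ∩ U).Nonempty} : Set (ℕ × ℕ))ᶜ ⊆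
            ⋃ e ∈ {e : ℕ | s e ∉ U}, (fun n => (e, n)) '' {n : ℕ | σ e n ∉ U} := by
          intro p hp
          simp only [mem_compl_iff, mem_preimage, mem_ofPred_eq, hΦ] at hp
          have hpσ : σ p.1 p.2 ∉ U := fun h => hp ⟨_, mem_insert _ _, h⟩
          have hps : s p.1 ∉ U := fun h => hp ⟨_, mem_insert_of_mem _ rfl, h⟩
          simp only [mem_iUnion]
          exact ⟨p.1, hps, p.2, hpσ, rfl⟩
        exact (hfin1.biUnion (fun e _ => (hfin2 e).image _)).subset hsub
      · rw [OnePoint.isOpen_iff_of_notMem]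
        · exact isOpen_discrete _
        · rintro ⟨z, hz, hzU⟩
          rw [hΦinf, mem_singleton_iff] at hz
          exact hxU (hz ▸ hzU)
    obtain ⟨F, hF, hFΦ⟩ := hC (OnePoint (ℕ × ℕ)) Φ h1 h2 h3
    have hFinf : F OnePoint.infty = x := by
      have := hFΦ OnePoint.infty
      rwa [hΦinf, mem_singleton_iff] at this
    -- key: for each open `U ∋ x`, all but finitely many values of `F` are in `U`
    have hfin : ∀ U : Set X, IsOpen U → x ∈ U →
        {p : ℕ × ℕ | F (p : OnePoint (ℕ × ℕ)) ∉ U}.Finite := by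
      intro U hU hxU
      have ho : IsOpen (F ⁻¹' U) := hU.preimage hF
      rw [OnePoint.isOpen_iff_of_mem (show OnePoint.infty ∈ F ⁻¹' U by
        rw [mem_preimage, hFinf]; exact hxU)] at ho
      have := ho.2
      rw [isCompact_iff_finite] at this
      exact this
    have hcol : ∀ e, ∃ N : ℕ, ∀ n ≥ N, F ((e, n) : ℕ × ℕ) = σ e n := by
      intro e
      have hsx' : s e ≠ x := hs e
      have hf := hfin {s e}ᶜ isOpen_compl_singleton (fun h => hsx' (by
        rw [mem_singleton_iff] at h; exact h.symm))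
      have hf2 : {n : ℕ | F ((e, n) : ℕ × ℕ) = s e}.Finite := by
        have : (fun n : ℕ => ((e, n) : ℕ × ℕ)) '' {n : ℕ | F ((e, n) : ℕ × ℕ) = s e} ⊆
            {p : ℕ × ℕ | F (p : OnePoint (ℕ × ℕ)) ∉ ({s e}ᶜ : Set X)} := by
          rintro _ ⟨n, hn, rfl⟩
          simpa using hn
        exact Finite.of_finite_image (hf.subset this) (by
          intro a _ b _ hab; exact (Prod.ext_iff.1 hab).2)
      obtain ⟨N, hN⟩ := hf2.bddAbove
      refine ⟨N + 1, fun n hn => ?_⟩
      have := hFΦ ((e, n) : ℕ × ℕ)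
      rw [hΦ] at this
      rcases this with h | h
      · exact h
      · exfalso
        have : n ≤ N := hN h
        omega
    choose N hN using hcol
    refine ⟨N, fun U hU hxU => (hfin U hU hxU).subset ?_⟩
    rintro ⟨e, n⟩ ⟨hn, hσU⟩
    simp only [mem_ofPred_eq]
    rw [hN e n hn]
    exact hσU

lemma alpha_one (hC : CSelective.{u, 0} X) {E : Type} [Countable E] (x : X) (σ : E → ℕ → X)
    (hσ : ∀ e, Tendsto (σ e) atTop (𝓝 x)) :
    ∃ N : E → ℕ, ∀ U : Set X, IsOpen U → x ∈ U → {e : E | ∃ n ≥ N e, σ e n ∉ U}.Finite := by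
  classical
  obtain ⟨c, hc⟩ := exists_injective_nat E
  let σ' : ℕ → ℕ → X := fun m => if h : ∃ e, c e = m then σ h.choose else fun _ => x
  have hσ' : ∀ m, Tendsto (σ' m) atTop (𝓝 x) := by
    intro m
    by_cases h : ∃ e, c e = m
    · have : σ' m = σ h.choose := dif_pos h
      rw [this]; exact hσ _
    · have : σ' m = fun _ => x := dif_neg h
      rw [this]; exact tendsto_const_nhds
  have hσc : ∀ e, σ' (c e) = σ e := by
    intro e
    have h : ∃ e', c e' = c e := ⟨e, rfl⟩
    have h1 : σ' (c e) = σ h.choose := dif_pos h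
    rw [h1, hc h.choose_spec]
  obtain ⟨N, hN⟩ := alpha_one_nat hC x σ' hσ'
  refine ⟨fun e => N (c e), fun U hU hxU => ?_⟩
  have hf := (hN U hU hxU).image Prod.fst
  refine Finite.of_finite_image (f := c) (hf.subset ?_) hc.injOn
  rintro _ ⟨e, ⟨n, hn, hne⟩, rfl⟩
  exact ⟨(c e, n), ⟨hn, by rw [hσc]; exact hne⟩, rfl⟩

end alpha

/-! ## A countable set closed under countably many operations -/

lemma exists_closed_enum {X : Type u} (S : Set X) (hS : S.Countable) (hne : S.Nonempty)
    (Ψ : X → Set X) (hΨ : ∀ b, (Ψ b).Countable) :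
    ∃ v : ℕ → X, S ⊆ range v ∧ ∀ b ∈ range v, Ψ b ⊆ range v := by
  let M : ℕ → Set X := fun n => Nat.rec S (fun _ T => T ∪ ⋃ b ∈ T, Ψ b) n
  have hM0 : M 0 = S := rfl
  have hMs : ∀ n, M (n + 1) = M n ∪ ⋃ b ∈ M n, Ψ b := fun n => rfl
  have hMc : ∀ n, (M n).Countable := by
    intro n
    induction n with
    | zero => exact hS
    | succ n ih => rw [hMs]; exact ih.union (ih.biUnion fun b _ => hΨ b)
  have hc : (⋃ n, M n).Countable := countable_iUnion hMc
  have hn : (⋃ n, M n).Nonempty := by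
    obtain ⟨x, hx⟩ := hne
    exact ⟨x, mem_iUnion.2 ⟨0, hx⟩⟩
  obtain ⟨v, hv⟩ := hc.exists_eq_range hn
  refine ⟨v, ?_, ?_⟩
  · rw [← hv]; exact subset_iUnion M 0
  · intro b hb
    rw [← hv] at hb ⊢
    obtain ⟨n, hn⟩ := mem_iUnion.1 hb
    refine Subset.trans ?_ (subset_iUnion M (n + 1))
    rw [hMs]
    exact Subset.trans (subset_biUnion_of_mem (u := Ψ) hn) subset_union_right

/-! ## The tree of nodes with the coarse wedge topology -/

/-- A node is a finite list of triples; the list `(y, l, k) :: s` is a child of `s`. -/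
structure Node (Y : Type) where
  /-- the underlying list -/
  l : List (Y × ℕ × ℕ)

namespace Node

variable {Y : Type}

open Classical in
/-- The map defining the topology. -/
noncomputable def code (s : Node Y) : List (Y × ℕ × ℕ) → Bool := fun r => decide (r <:+ s.l)

lemma code_injective : Function.Injective (code : Node Y → _) := by
  intro s t h
  have h1 : ∀ r, (r <:+ s.l ↔ r <:+ t.l) := by
    intro r
    have := congrFun h r
    simpa [code] using this
  have h2 : s.l <:+ t.l := (h1 _).1 (List.suffix_refl _)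
  have h3 : t.l <:+ s.l := (h1 _).2 (List.suffix_refl _)
  have h4 : s.l = t.l := h2.eq_of_length_le h3.length_le
  cases s; cases t; simp_all

/-- The coarse wedge topology: the wedges `{s | r <:+ s}` and their complements are open. -/
noncomputable instance : TopologicalSpace (Node Y) := TopologicalSpace.induced code inferInstance

lemma isEmbedding_code : IsEmbedding (code : Node Y → _) := ⟨⟨rfl⟩, code_injective⟩

instance : T2Space (Node Y) := isEmbedding_code.t2Space
instance : RegularSpace (Node Y) := isEmbedding_code.isInducing.regularSpace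
instance [Countable Y] : Countable (Node Y) := by
  have : Function.Injective (Node.l : Node Y → _) := by
    intro a b h; cases a; cases b; simp_all
  exact this.countable

lemma isOpen_wedge (r : List (Y × ℕ × ℕ)) : IsOpen {s : Node Y | r <:+ s.l} := by
  have hc : Continuous (fun s : Node Y => code s r) :=
    (continuous_apply r).comp isEmbedding_code.continuous
  have : {s : Node Y | r <:+ s.l} = (fun s : Node Y => code s r) ⁻¹' {true} := by
    ext s; simp [code]
  rw [this]; exact (isOpen_discrete _).preimage hc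

lemma isOpen_compl_wedge (r : List (Y × ℕ × ℕ)) : IsOpen {s : Node Y | ¬ r <:+ s.l} := by
  have hc : Continuous (fun s : Node Y => code s r) :=
    (continuous_apply r).comp isEmbedding_code.continuous
  have : {s : Node Y | ¬ r <:+ s.l} = (fun s : Node Y => code s r) ⁻¹' {false} := by
    ext s; simp [code]
  rw [this]; exact (isOpen_discrete _).preimage hc

/-- The children `(y, l, k) :: s` converge to `s` as `k → ∞`. -/
lemma tendsto_child (s : List (Y × ℕ × ℕ)) (y : Y) (l : ℕ) :
    Tendsto (fun k => (⟨(y, l, k) :: s⟩ : Node Y)) atTop (𝓝 ⟨s⟩) := by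
  rw [isEmbedding_code.isInducing.tendsto_nhds_iff, tendsto_pi_nhds]
  intro r
  apply tendsto_const_nhds.congr'
  -- only one value of `k` can be bad
  have : ∀ᶠ k in atTop, r ≠ (y, l, k) :: s := by
    by_cases h : ∃ k, r = (y, l, k) :: s
    · obtain ⟨k, hk⟩ := h
      filter_upwards [eventually_gt_atTop k] with k' hk' h'
      rw [hk] at h'
      simp at h'
      omega
    · push Not at h
      exact Eventually.of_forall h
  filter_upwards [this] with k hk
  simp only [code, Function.comp, decide_eq_decide]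
  constructor
  · intro h; exact h.trans (List.suffix_cons _ _)
  · intro h
    rcases List.suffix_cons_iff.1 h with h | h
    · exact absurd h hk
    · exact h

/-- A map into nodes is continuous at a point if membership in each wedge is locally constant
there. -/
lemma continuousAt_of_wedge {Z : Type*} [TopologicalSpace Z] (f : Z → Node Y) (z : Z)
    (h : ∀ r : List (Y × ℕ × ℕ), ∀ᶠ w in 𝓝 z, (r <:+ (f w).l ↔ r <:+ (f z).l)) :
    ContinuousAt f z := by
  rw [ContinuousAt, isEmbedding_code.isInducing.tendsto_nhds_iff, tendsto_pi_nhds]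
  intro r
  apply tendsto_const_nhds.congr'
  filter_upwards [h r] with w hw
  simp only [code, Function.comp, decide_eq_decide]
  exact hw.symm

end Node

/-! ## The auxiliary finite-valued map on `Node Y × Y` -/

section aux

variable {Y : Type} {X : Type u} [TopologicalSpace Y] [TopologicalSpace X]

/-- `b` is in the closure of `φ y` but not in `φ y`. -/
def Active (φ : Y → Set X) (y : Y) (b : X) : Prop := b ∈ closure (φ y) ∧ b ∉ φ y

/-- The finite set of constants used at a node. -/
def K (v : ℕ → X) (N : List (Y × ℕ × ℕ) × Y × ℕ → ℕ) : List (Y × ℕ × ℕ) → Set X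
  | [] => ∅
  | (y, l, _) :: s => K v N s ∪ v '' {m | m < N (s, y, l)}

/-- The finite set of selections of the closure of `φ` used at a node. -/
def Good (φ : Y → Set X) (g0 : Y → X) (G : Y → X → Y → X) (A : Y → X → ℕ → X) (v : ℕ → X)
    (n0 : List (Y × ℕ × ℕ) × Y × ℕ → ℕ) : List (Y × ℕ × ℕ) → Set (Y → X)
  | [] => {g0}
  | (y, l, k) :: s => Good φ g0 G A v n0 s ∪
      {g | Active φ y (v l) ∧ ∃ n, n0 (s, y, l) ≤ n ∧ n ≤ n0 (s, y, l) + k ∧
        g = G y (A y (v l) n)}

/-- All values at `w` of the functions used at the node `s`. -/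
def Phi0 (φ : Y → Set X) (g0 : Y → X) (G : Y → X → Y → X) (A : Y → X → ℕ → X) (v : ℕ → X)
    (N n0 : List (Y × ℕ × ℕ) × Y × ℕ → ℕ) (s : List (Y × ℕ × ℕ)) (w : Y) : Set X :=
  {x | (∃ g ∈ Good φ g0 G A v n0 s, g w = x) ∨ x ∈ K v N s}

/-- The set-valued map on `Node Y × Y`: at the centre of an active node the guessed value is
removed. -/
def Phi (φ : Y → Set X) (g0 : Y → X) (G : Y → X → Y → X) (A : Y → X → ℕ → X) (v : ℕ → X)
    (N n0 : List (Y × ℕ × ℕ) × Y × ℕ → ℕ) (s : List (Y × ℕ × ℕ)) (w : Y) : Set X :=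
  {x | x ∈ Phi0 φ g0 G A v N n0 s w ∧
    ∀ l k t, s = (w, l, k) :: t → Active φ w (v l) → x ≠ v l}

variable {φ : Y → Set X} {g0 : Y → X} {G : Y → X → Y → X} {A : Y → X → ℕ → X} {v : ℕ → X}
  {N n0 : List (Y × ℕ × ℕ) × Y × ℕ → ℕ}

lemma K_finite (s : List (Y × ℕ × ℕ)) : (K v N s).Finite := by
  induction s with
  | nil => exact finite_empty
  | cons p s ih =>
    obtain ⟨y, l, k⟩ := p
    exact ih.union ((finite_lt_nat _).image v)

lemma Good_finite (s : List (Y × ℕ × ℕ)) : (Good φ g0 G A v n0 s).Finite := by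
  induction s with
  | nil => exact finite_singleton g0
  | cons p s ih =>
    obtain ⟨y, l, k⟩ := p
    refine ih.union (((finite_le_nat (n0 (s, y, l) + k)).image
      (fun n => G y (A y (v l) n))).subset ?_)
    rintro g ⟨_, n, _, hn, rfl⟩
    exact ⟨n, hn, rfl⟩

lemma Phi0_finite (s : List (Y × ℕ × ℕ)) (w : Y) : (Phi0 φ g0 G A v N n0 s w).Finite := by
  have h1 : ((fun g : Y → X => g w) '' (Good φ g0 G A v n0 s)).Finite :=
    (Good_finite s).image _
  refine (h1.union (K_finite (v := v) (N := N) s)).subset ?_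
  rintro x (⟨g, hg, rfl⟩ | hx)
  · exact Or.inl ⟨g, hg, rfl⟩
  · exact Or.inr hx

lemma Phi_finite (s : List (Y × ℕ × ℕ)) (w : Y) : (Phi φ g0 G A v N n0 s w).Finite :=
  (Phi0_finite s w).subset fun _ hx => hx.1

lemma K_mono {s t : List (Y × ℕ × ℕ)} (h : s <:+ t) : K v N s ⊆ K v N t := by
  induction t with
  | nil => rw [List.suffix_nil.1 h]
  | cons p t ih =>
    rcases List.suffix_cons_iff.1 h with h | h
    · rw [h]
    · exact (ih h).trans (by obtain ⟨y, l, k⟩ := p; exact subset_union_left)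

lemma Good_mono {s t : List (Y × ℕ × ℕ)} (h : s <:+ t) :
    Good φ g0 G A v n0 s ⊆ Good φ g0 G A v n0 t := by
  induction t with
  | nil => rw [List.suffix_nil.1 h]
  | cons p t ih =>
    rcases List.suffix_cons_iff.1 h with h | h
    · rw [h]
    · exact (ih h).trans (by obtain ⟨y, l, k⟩ := p; exact subset_union_left)

/-- The standing hypotheses on the data. -/
structure Data (φ : Y → Set X) (g0 : Y → X) (G : Y → X → Y → X) (A : Y → X → ℕ → X) (v : ℕ → X)
    (N n0 : List (Y × ℕ × ℕ) × Y × ℕ → ℕ) : Prop where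
  g0c : Continuous g0
  g0s : ∀ w, g0 w ∈ closure (φ w)
  g0v : ∀ w, g0 w ∈ range v
  Gc : ∀ y, ∀ a ∈ closure (φ y), Continuous (G y a)
  Gs : ∀ y, ∀ a ∈ closure (φ y), ∀ w, G y a w ∈ closure (φ w)
  Ga : ∀ y, ∀ a ∈ closure (φ y), G y a y = a
  Gv : ∀ y, ∀ a ∈ closure (φ y), a ∈ range v → ∀ w, G y a w ∈ range v
  Aφ : ∀ y, ∀ b ∈ closure (φ y), ∀ n, A y b n ∈ φ y
  At : ∀ y, ∀ b ∈ closure (φ y), Tendsto (A y b) atTop (𝓝 b)
  Av : ∀ y, ∀ b ∈ closure (φ y), b ∈ range v → ∀ n, A y b n ∈ range v
  Ninj : Function.Injective N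
  P1 : ∀ (x : X) (U : Set X), IsOpen U → x ∈ U →
    {e : List (Y × ℕ × ℕ) × Y × ℕ | v e.2.2 = x ∧ Active φ e.2.1 x ∧
      ∃ n ≥ n0 e, A e.2.1 x n ∉ U}.Finite
  P2 : ∀ (s : List (Y × ℕ × ℕ)) (y : Y) (l : ℕ), Active φ y (v l) → ∀ n ≥ n0 (s, y, l),
    A y (v l) n ∉ K v N ((y, l, 0) :: s)

lemma Good_prop (D : Data φ g0 G A v N n0) (s : List (Y × ℕ × ℕ)) :
    ∀ g ∈ Good φ g0 G A v n0 s, Continuous g ∧ (∀ w, g w ∈ closure (φ w)) ∧
      ∀ w, g w ∈ range v := by
  induction s with
  | nil =>
    intro g hg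
    have : g = g0 := hg
    subst this
    exact ⟨D.g0c, D.g0s, D.g0v⟩
  | cons p s ih =>
    obtain ⟨y, l, k⟩ := p
    rintro g (hg | ⟨hact, n, hn1, hn2, rfl⟩)
    · exact ih g hg
    · have ha := D.Aφ y (v l) hact.1 n
      have hac := subset_closure ha
      have hav := D.Av y (v l) hact.1 ⟨l, rfl⟩ n
      exact ⟨D.Gc y _ hac, D.Gs y _ hac, D.Gv y _ hac hav⟩

lemma K_range (s : List (Y × ℕ × ℕ)) : K v N s ⊆ range v := by
  induction s with
  | nil => exact empty_subset _
  | cons p s ih =>
    obtain ⟨y, l, k⟩ := p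
    exact union_subset ih (image_subset_range _ _)

lemma Phi0_range (D : Data φ g0 G A v N n0) (s : List (Y × ℕ × ℕ)) (w : Y) :
    Phi0 φ g0 G A v N n0 s w ⊆ range v := by
  rintro x (⟨g, hg, rfl⟩ | hx)
  · exact (Good_prop D s g hg).2.2 w
  · exact K_range s hx

lemma new_mem (D : Data φ g0 G A v N n0) (s : List (Y × ℕ × ℕ)) (y : Y) (l k : ℕ)
    (hact : Active φ y (v l)) (n : ℕ) (h1 : n0 (s, y, l) ≤ n) (h2 : n ≤ n0 (s, y, l) + k) :
    A y (v l) n ∈ Phi φ g0 G A v N n0 ((y, l, k) :: s) y := by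
  have ha := D.Aφ y (v l) hact.1 n
  refine ⟨Or.inl ⟨G y (A y (v l) n), Or.inr ⟨hact, n, h1, h2, rfl⟩,
    D.Ga y _ (subset_closure ha)⟩, ?_⟩
  rintro l' k' t h _ hcon
  have hl : l = l' := by
    have := (List.cons.inj h).1
    simp only [Prod.mk.injEq] at this
    exact this.2.1
  subst hl
  exact hact.2 (hcon ▸ ha)

lemma Phi_nonempty (D : Data φ g0 G A v N n0) (s : List (Y × ℕ × ℕ)) (w : Y) :
    (Phi φ g0 G A v N n0 s w).Nonempty := by
  by_cases h : ∃ l k t, s = (w, l, k) :: t ∧ Active φ w (v l)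
  · obtain ⟨l, k, t, rfl, hact⟩ := h
    exact ⟨_, new_mem D t w l k hact (n0 (t, w, l)) le_rfl (Nat.le_add_right _ _)⟩
  · push Not at h
    refine ⟨g0 w, Or.inl ⟨g0, Good_mono (List.nil_suffix (l := s)) (mem_singleton g0), rfl⟩, ?_⟩
    intro l k t hs hact
    exact absurd hact (h l k t hs)

/-- **Key lemma.** The finite-valued map is l.s.c. for the coarse wedge topology. -/
lemma Phi_LSC [T1Space Y] [T1Space X] (D : Data φ g0 G A v N n0) :
    LSC (fun p : Node Y × Y => Phi φ g0 G A v N n0 p.1.l p.2) := by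
  classical
  intro U hU
  rw [isOpen_iff_mem_nhds]
  rintro ⟨⟨s0⟩, w0⟩ ⟨x, hx, hxU⟩
  change x ∈ Phi φ g0 G A v N n0 s0 w0 at hx
  -- a continuous function through `x`
  obtain ⟨γ, hγc, hγx, hγs⟩ : ∃ γ : Y → X, Continuous γ ∧ γ w0 = x ∧
      ∀ s, s0 <:+ s → ∀ w, γ w ∈ Phi0 φ g0 G A v N n0 s w := by
    rcases hx.1 with ⟨g, hg, hgx⟩ | hxK
    · exact ⟨g, (Good_prop D s0 g hg).1, hgx, fun s hs w => Or.inl ⟨g, Good_mono hs hg, rfl⟩⟩
    · exact ⟨fun _ => x, continuous_const, rfl, fun s hs w => Or.inr (K_mono hs hxK)⟩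
  obtain ⟨l0, hl0⟩ : x ∈ range v := Phi0_range D s0 w0 hx.1
  -- the exceptional families
  let Bad : Set (List (Y × ℕ × ℕ) × Y × ℕ) :=
    {e | N e ≤ l0} ∪ {e | v e.2.2 = x ∧ Active φ e.2.1 x ∧ ∃ n ≥ n0 e, A e.2.1 x n ∉ U}
  have hBad : Bad.Finite := by
    refine Finite.union ?_ (D.P1 x U hU hxU)
    exact (finite_le_nat l0).preimage D.Ninj.injOn
  -- exceptional nodes
  let R : Set (List (Y × ℕ × ℕ)) :=
    ⋃ e ∈ Bad, {r | ∃ k, r = (e.2.1, e.2.2, k) :: e.1 ∧ Active φ e.2.1 x ∧
      ∀ n, n0 e ≤ n → n ≤ n0 e + k → A e.2.1 x n ∉ U}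
  have hR : R.Finite := by
    refine hBad.biUnion fun e _ => ?_
    by_cases hact : Active φ e.2.1 x
    · have ht := (D.At e.2.1 x hact.1).eventually (hU.mem_nhds hxU)
      obtain ⟨n1, hn1⟩ := eventually_atTop.1 ht
      refine ((finite_lt_nat n1).image (fun k => (e.2.1, e.2.2, k) :: e.1)).subset ?_
      rintro r ⟨k, rfl, _, hk⟩
      refine ⟨k, ?_, rfl⟩
      by_contra hcon
      have hcon' : n1 ≤ k := not_lt.1 hcon
      exact hk (n0 e + k) (Nat.le_add_right _ _) le_rfl (hn1 _ (by omega))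
    · have : {r | ∃ k, r = (e.2.1, e.2.2, k) :: e.1 ∧ Active φ e.2.1 x ∧
          ∀ n, n0 e ≤ n → n ≤ n0 e + k → A e.2.1 x n ∉ U} = ∅ := by
        ext r
        simp only [mem_ofPred_eq, mem_empty_iff_false, iff_false]
        rintro ⟨k, _, h, _⟩
        exact hact h
      rw [this]; exact finite_empty
  -- the neighbourhood of the node
  have hO : {s : Node Y | s0 <:+ s.l ∧ ∀ r ∈ R, ¬ r <:+ s0 → ¬ r <:+ s.l} ∈ 𝓝 (⟨s0⟩ : Node Y) := by
    refine Filter.inter_mem ((Node.isOpen_wedge s0).mem_nhds (List.suffix_refl s0)) ?_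
    have : {s : Node Y | ∀ r ∈ R, ¬ r <:+ s0 → ¬ r <:+ s.l} =
        ⋂ r ∈ R, {s : Node Y | ¬ r <:+ s0 → ¬ r <:+ s.l} := by
      ext s; simp
    change {s : Node Y | ∀ r ∈ R, ¬ r <:+ s0 → ¬ r <:+ s.l} ∈ _
    rw [this, biInter_mem hR]
    intro r _
    by_cases hr : r <:+ s0
    · filter_upwards with s h
      exact absurd hr h
    · filter_upwards [(Node.isOpen_compl_wedge r).mem_nhds (show ¬ r <:+ (⟨s0⟩ : Node Y).l from hr)]
        with s hs _
      exact hs
  -- the neighbourhood of `w0`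
  have hfin : ({y | y ≠ w0 ∧ ((∃ e ∈ Bad, e.2.1 = y) ∨ ∃ l k t, s0 = (y, l, k) :: t)}).Finite := by
    refine Finite.subset ((hBad.image (fun e => e.2.1)).union
      ((s0.map Prod.fst).finite_toSet)) ?_
    rintro y ⟨_, (⟨e, he, rfl⟩ | ⟨l, k, t, rfl⟩)⟩
    · exact Or.inl ⟨e, he, rfl⟩
    · right; simp
  have hV : {w | γ w ∈ U ∧ ¬ (w ≠ w0 ∧ ((∃ e ∈ Bad, e.2.1 = w) ∨ ∃ l k t, s0 = (w, l, k) :: t))}
      ∈ 𝓝 w0 := by
    refine Filter.inter_mem (hγc.continuousAt (hU.mem_nhds (by rw [hγx]; exact hxU))) ?_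
    exact hfin.isClosed.isOpen_compl.mem_nhds (fun h => h.1 rfl)
  refine mem_of_superset (prod_mem_nhds hO hV) ?_
  rintro ⟨⟨s⟩, w⟩ ⟨⟨hs, hsR⟩, ⟨hwU, hwB⟩⟩
  change s0 <:+ s at hs
  change ∀ r ∈ R, ¬ r <:+ s0 → ¬ r <:+ s at hsR
  change γ w ∈ U at hwU
  change ¬ (w ≠ w0 ∧ ((∃ e ∈ Bad, e.2.1 = w) ∨ ∃ l k t, s0 = (w, l, k) :: t)) at hwB
  change (Phi φ g0 G A v N n0 s w ∩ U).Nonempty
  have hγw := hγs s hs w
  by_cases hcase : ∀ l k t, s = (w, l, k) :: t → Active φ w (v l) → γ w ≠ v l
  · exact ⟨γ w, ⟨hγw, hcase⟩, hwU⟩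
  push Not at hcase
  obtain ⟨l, k, t, rfl, hact, hγb⟩ := hcase
  by_cases hs0 : s0 = (w, l, k) :: t
  · -- the node is the same
    exfalso
    have hww : w = w0 := by
      by_contra hne
      exact hwB ⟨hne, Or.inr ⟨l, k, t, hs0⟩⟩
    subst hww
    exact hx.2 l k t hs0 hact (by rw [← hγx]; exact hγb)
  have hst : s0 <:+ t := by
    rcases List.suffix_cons_iff.1 hs with h | h
    · exact absurd h hs0
    · exact h
  by_cases heB : (t, w, l) ∈ Bad
  · have hww : w = w0 := by
      by_contra hne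
      exact hwB ⟨hne, Or.inl ⟨_, heB, rfl⟩⟩
    subst hww
    have hxb : x = v l := by rw [← hγx]; exact hγb
    by_cases hk : ∀ n, n0 (t, w, l) ≤ n → n ≤ n0 (t, w, l) + k → A w x n ∉ U
    · exfalso
      have hmem : ((w, l, k) :: t) ∈ R := by
        simp only [R, mem_iUnion]
        exact ⟨(t, w, l), heB, k, rfl, by rw [hxb]; exact hact, hk⟩
      refine hsR _ hmem ?_ (List.suffix_refl _)
      intro hcon
      exact hs0 (hs.eq_of_length_le hcon.length_le)
    · push Not at hk
      obtain ⟨n, h1, h2, h3⟩ := hk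
      rw [hxb] at h3
      exact ⟨_, new_mem D t w l k hact n h1 h2, h3⟩
  · by_cases hxb : x = v l
    · -- all late terms of the sequence are in `U`
      have h3 : A w (v l) (n0 (t, w, l)) ∈ U := by
        by_contra hcon
        apply heB
        right
        exact ⟨hxb.symm, by rw [hxb]; exact hact, n0 (t, w, l), le_rfl, by rw [hxb]; exact hcon⟩
      exact ⟨_, new_mem D t w l k hact _ le_rfl (Nat.le_add_right _ _), h3⟩
    · have hN : l0 < N (t, w, l) := by
        by_contra hcon
        exact heB (Or.inl (not_lt.1 hcon))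
      refine ⟨x, ⟨Or.inr (Or.inr ⟨l0, hN, hl0⟩), ?_⟩, hxU⟩
      intro l' k' t' h _
      have hl : l = l' := by
        have := (List.cons.inj h).1
        simp only [Prod.mk.injEq] at this
        exact this.2.1
      subst hl
      exact hxb

end aux

/-! ## Existence of the data -/

lemma exists_data {Y : Type} {X : Type u} [TopologicalSpace Y] [TopologicalSpace X] [T1Space Y]
    [RegularSpace Y] [Countable Y] [Nonempty Y] [T1Space X] [FrechetUrysohnSpace X]
    (hC : CSelective.{u, 0} X) (φ : Y → Set X) (hne : ∀ y, (φ y).Nonempty) (hφ : LSC φ) :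
    ∃ g0 G A v N n0, Data φ g0 G A v N n0 := by
  classical
  have hS : Selective Y X := hC Y
  -- a selection of the closure
  obtain ⟨g0, hg0c, hg0⟩ := hS (fun y => closure (φ y)) (fun y => (hne y).mono subset_closure)
    (fun y => isClosed_closure) (lsc_closure hφ)
  obtain ⟨x0, _⟩ := hne (Classical.arbitrary Y)
  -- selections through points
  have hG : ∀ y : Y, ∀ a : X, ∃ g : Y → X, a ∈ closure (φ y) →
      Continuous g ∧ (∀ w, g w ∈ closure (φ w)) ∧ g y = a := by
    intro y a
    by_cases ha : a ∈ closure (φ y)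
    · obtain ⟨g, hg⟩ := exists_sel_through hS hne hφ y a ha
      exact ⟨g, fun _ => hg⟩
    · exact ⟨fun _ => x0, fun h => absurd h ha⟩
  choose G hG using hG
  -- sequences
  have hA : ∀ y : Y, ∀ b : X, ∃ a : ℕ → X, b ∈ closure (φ y) →
      (∀ n, a n ∈ φ y) ∧ Tendsto a atTop (𝓝 b) := by
    intro y b
    by_cases hb : b ∈ closure (φ y)
    · obtain ⟨a, ha⟩ := mem_closure_iff_seq_limit.1 hb
      exact ⟨a, fun _ => ha⟩
    · exact ⟨fun _ => x0, fun h => absurd h hb⟩
  choose A hA using hA
  -- the countable set of values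
  obtain ⟨v, hv0, hvc⟩ := exists_closed_enum (range g0) (countable_range g0)
    (range_nonempty g0)
    (fun b => ⋃ y : Y, (range (A y b) ∪ range (G y b)))
    (fun b => countable_iUnion fun y => (countable_range _).union (countable_range _))
  obtain ⟨N, hN⟩ := exists_injective_nat (List (Y × ℕ × ℕ) × Y × ℕ)
  -- thinning
  have hα : ∀ x : X, ∃ M : (List (Y × ℕ × ℕ) × Y × ℕ) → ℕ, ∀ U : Set X, IsOpen U → x ∈ U →
      {e : List (Y × ℕ × ℕ) × Y × ℕ | ∃ n ≥ M e,
        (if v e.2.2 = x ∧ Active φ e.2.1 x then A e.2.1 x else fun _ => x) n ∉ U}.Finite := by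
    intro x
    refine alpha_one hC x _ ?_
    intro e
    split_ifs with h
    · exact (hA e.2.1 x h.2.1).2
    · exact tendsto_const_nhds
  choose M hM using hα
  have hT : ∀ e : List (Y × ℕ × ℕ) × Y × ℕ, ∃ T : ℕ, Active φ e.2.1 (v e.2.2) → ∀ n ≥ T,
      A e.2.1 (v e.2.2) n ∉ K v N ((e.2.1, e.2.2, 0) :: e.1) := by
    intro e
    by_cases hact : Active φ e.2.1 (v e.2.2)
    · have hfin : (K v N ((e.2.1, e.2.2, 0) :: e.1) \ {v e.2.2}).Finite :=
        (K_finite _).subset sdiff_subset
      have hopen := hfin.isClosed.isOpen_compl.mem_nhds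
        (show v e.2.2 ∈ (K v N ((e.2.1, e.2.2, 0) :: e.1) \ {v e.2.2})ᶜ from
          fun h => h.2 rfl)
      obtain ⟨T, hT⟩ := eventually_atTop.1 ((hA e.2.1 _ hact.1).2.eventually hopen)
      refine ⟨T, fun _ n hn hcon => hT n hn ⟨hcon, fun h => hact.2 ?_⟩⟩
      rw [mem_singleton_iff] at h
      rw [← h]
      exact (hA e.2.1 _ hact.1).1 n
    · exact ⟨0, fun h => absurd h hact⟩
  choose T hT using hT
  refine ⟨g0, G, A, v, N, fun e => max (M (v e.2.2) e) (T e), ?_⟩
  refine
    { g0c := hg0c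
      g0s := hg0
      g0v := fun w => hv0 ⟨w, rfl⟩
      Gc := fun y a ha => (hG y a ha).1
      Gs := fun y a ha => (hG y a ha).2.1
      Ga := fun y a ha => (hG y a ha).2.2
      Gv := fun y a ha hav w => hvc a hav (mem_iUnion.2 ⟨y, Or.inr ⟨w, rfl⟩⟩)
      Aφ := fun y b hb => (hA y b hb).1
      At := fun y b hb => (hA y b hb).2
      Av := fun y b hb hbv n => hvc b hbv (mem_iUnion.2 ⟨y, Or.inl ⟨n, rfl⟩⟩)
      Ninj := hN
      P1 := ?_
      P2 := ?_ }
  · intro x U hU hxU
    refine (hM x U hU hxU).subset ?_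
    rintro e ⟨hve, hact, n, hn, hnU⟩
    refine ⟨n, ?_, ?_⟩
    · have : max (M (v e.2.2) e) (T e) ≤ n := hn
      rw [hve] at this
      exact le_trans (le_max_left _ _) this
    · rw [if_pos ⟨hve, hact⟩]; exact hnU
  · intro s y l hact n hn
    exact hT (s, y, l) hact n (le_trans (le_max_right _ _) hn)

/-! ## The section -/

section sect

variable {Y : Type} {X : Type u} [TopologicalSpace Y] [TopologicalSpace X]

/-- Invariant of the construction: `s` is locally constant and `w ↦ F (s w, w)` is a selection of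
the closure of `φ`. -/
def Inv (φ : Y → Set X) (F : Node Y × Y → X) (s : Y → List (Y × ℕ × ℕ)) : Prop :=
  IsLocallyConstant s ∧ ∀ w, F (⟨s w⟩, w) ∈ closure (φ w)

/-- One step of the construction. -/
def StepRel (φ : Y → Set X) (F : Node Y × Y → X) (c : Y → ℕ) (m : ℕ)
    (s s' : Y → List (Y × ℕ × ℕ)) (W : Set Y) : Prop :=
  IsClosed W ∧ (∀ w, c w < m → w ∉ W) ∧ (∀ w, w ∉ W → s' w = s w) ∧
    (∀ w ∈ W, ∃ y l k, c y = m ∧ s' w = (y, l, k) :: s w) ∧ (∀ y, c y = m → F (⟨s' y⟩, y) ∈ φ y)

variable {φ : Y → Set X} {g0 : Y → X} {G : Y → X → Y → X} {A : Y → X → ℕ → X} {v : ℕ → X}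
  {N n0 : List (Y × ℕ × ℕ) × Y × ℕ → ℕ}

lemma exists_step [T1Space Y] [RegularSpace Y] [Countable Y] [T1Space X]
    (D : Data φ g0 G A v N n0) (F : Node Y × Y → X) (hF : Continuous F)
    (hFΦ : ∀ p : Node Y × Y, F p ∈ Phi φ g0 G A v N n0 p.1.l p.2) (c : Y → ℕ)
    (hc : Function.Injective c) (m : ℕ) (s : Y → List (Y × ℕ × ℕ)) (hs : Inv φ F s) :
    ∃ s' W, Inv φ F s' ∧ StepRel φ F c m s s' W := by
  classical
  by_cases hm : ∃ y, c y = m
  swap
  · refine ⟨s, ∅, hs, isClosed_empty, fun _ _ h => h, fun _ _ => rfl, fun w hw => absurd hw id, ?_⟩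
    intro y hy
    exact absurd ⟨y, hy⟩ hm
  obtain ⟨y, hy⟩ := hm
  by_cases hgood : F (⟨s y⟩, y) ∈ φ y
  · refine ⟨s, ∅, hs, isClosed_empty, fun _ _ h => h, fun _ _ => rfl, fun w hw => absurd hw id, ?_⟩
    intro y' hy'
    have : y' = y := hc (hy'.trans hy.symm)
    subst this
    exact hgood
  -- the guessed value
  obtain ⟨l, hl⟩ : F (⟨s y⟩, y) ∈ range v := Phi0_range D (s y) y (hFΦ (⟨s y⟩, y)).1
  have hact : Active φ y (v l) := by
    rw [hl]; exact ⟨hs.2 y, hgood⟩
  -- the finite set to be avoided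
  have hDfin : (Phi0 φ g0 G A v N n0 (s y) y ∪ K v N ((y, l, 0) :: s y)).Finite :=
    (Phi0_finite _ _).union (K_finite _)
  have hlim : Tendsto (fun k => F ((⟨(y, l, k) :: s y⟩ : Node Y), y)) atTop (𝓝 (v l)) := by
    rw [hl]
    have h1 : Tendsto (fun k => (((⟨(y, l, k) :: s y⟩ : Node Y), y) : Node Y × Y)) atTop
        (𝓝 ((⟨s y⟩ : Node Y), y)) :=
      (Node.tendsto_child (s y) y l).prodMk_nhds tendsto_const_nhds
    exact (hF.tendsto _).comp h1
  have hopen := (hDfin.subset (sdiff_subset (t := {v l}))).isClosed.isOpen_compl.mem_nhds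
    (show v l ∈ ((Phi0 φ g0 G A v N n0 (s y) y ∪ K v N ((y, l, 0) :: s y)) \ {v l})ᶜ from
      fun h => h.2 rfl)
  obtain ⟨k, hk⟩ := (hlim.eventually hopen).exists
  set s1 : List (Y × ℕ × ℕ) := (y, l, k) :: s y with hs1
  have hmem := hFΦ ((⟨s1⟩ : Node Y), y)
  have hne : F ((⟨s1⟩ : Node Y), y) ≠ v l := hmem.2 l k (s y) rfl hact
  have hnD : F ((⟨s1⟩ : Node Y), y) ∉ Phi0 φ g0 G A v N n0 (s y) y ∪ K v N ((y, l, 0) :: s y) :=
    fun h => hk ⟨h, hne⟩
  -- the value is a term of the sequence
  obtain ⟨n, hn, hFn⟩ : ∃ n, n0 (s y, y, l) ≤ n ∧ F ((⟨s1⟩ : Node Y), y) = A y (v l) n := by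
    rcases hmem.1 with ⟨g, hg, hgF⟩ | hKm
    · rcases hg with hg | ⟨_, n, hn1, _, rfl⟩
      · exact absurd (Or.inl (Or.inl ⟨g, hg, hgF⟩)) hnD
      · refine ⟨n, hn1, ?_⟩
        have ha := D.Aφ y (v l) hact.1 n
        have := D.Ga y _ (subset_closure ha)
        exact hgF.symm.trans this
    · exact absurd (Or.inr hKm) hnD
  have hval : F ((⟨s1⟩ : Node Y), y) ∈ φ y := by
    rw [hFn]; exact D.Aφ y (v l) hact.1 n
  have hFs1 : Continuous (fun w => F ((⟨s1⟩ : Node Y), w)) := hF.comp (by fun_prop)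
  have hnK : F ((⟨s1⟩ : Node Y), y) ∉ K v N s1 := fun h => hnD (Or.inr h)
  -- the clopen neighbourhood
  have hBfin : {w : Y | c w < m}.Finite := (finite_lt_nat m).preimage hc.injOn
  have hO : IsOpen ({w | s w = s y} ∩ {w | F ((⟨s1⟩ : Node Y), w) ∉ K v N s1} ∩
      {w | c w < m}ᶜ) := by
    refine IsOpen.inter (IsOpen.inter ?_ ?_) hBfin.isClosed.isOpen_compl
    · exact hs.1.isOpen_fiber (s y)
    · exact (K_finite (v := v) (N := N) s1).isClosed.isOpen_compl.preimage hFs1
  obtain ⟨W, hWcl, hyW, hWO⟩ := exists_clopen y _ hO ⟨⟨rfl, hnK⟩, by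
    simp only [mem_compl_iff, mem_ofPred_eq, hy, lt_irrefl, not_false_eq_true]⟩
  refine ⟨fun w => if w ∈ W then s1 else s w, W, ⟨?_, ?_⟩, hWcl.1, ?_, ?_, ?_, ?_⟩
  · rw [IsLocallyConstant.iff_eventually_eq]
    intro w
    by_cases hw : w ∈ W
    · filter_upwards [hWcl.2.mem_nhds hw] with w' hw'
      rw [if_pos hw, if_pos hw']
    · filter_upwards [hWcl.1.isOpen_compl.mem_nhds hw, (hs.1.eventually_eq w)] with w' hw' h'
      rw [if_neg hw, if_neg hw', h']
  · intro w
    by_cases hw : w ∈ W
    · simp only [if_pos hw]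
      have h1 := (hFΦ ((⟨s1⟩ : Node Y), w)).1
      have h2 : F ((⟨s1⟩ : Node Y), w) ∉ K v N s1 := (hWO hw).1.2
      rcases h1 with ⟨g, hg, hgF⟩ | h1
      · have := (Good_prop D s1 g hg).2.1 w
        rw [hgF] at this
        exact this
      · exact absurd h1 h2
    · simp only [if_neg hw]; exact hs.2 w
  · intro w hw hwW
    exact (hWO hwW).2 hw
  · intro w hw
    exact if_neg hw
  · intro w hw
    refine ⟨y, l, k, hy, ?_⟩
    change (if w ∈ W then s1 else s w) = _
    rw [if_pos hw, hs1]
    have : s w = s y := (hWO hw).1.1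
    rw [this]
  · intro y' hy'
    have : y' = y := hc (hy'.trans hy.symm)
    subst this
    simp only [if_pos hyW]
    exact hval

end sect

/-! ## The main theorem -/

theorem main {X : Type u} [TopologicalSpace X] [T1Space X] [FrechetUrysohnSpace X]
    (hC : CSelective.{u, 0} X) : StronglyCSelective.{u, 0} X := by
  classical
  intro Y _ _ _ _ φ hne hφ
  rcases isEmpty_or_nonempty Y with hY | hY
  · exact ⟨fun y => (hY.false y).elim, continuous_of_discreteTopology, fun y => (hY.false y).elim⟩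
  obtain ⟨g0, G, A, v, N, n0, D⟩ := exists_data hC φ hne hφ
  -- apply C-selectivity to `Node Y × Y`
  obtain ⟨F, hF, hFΦ⟩ := hC (Node Y × Y) (fun p => Phi φ g0 G A v N n0 p.1.l p.2)
    (fun p => Phi_nonempty D p.1.l p.2) (fun p => (Phi_finite p.1.l p.2).isClosed) (Phi_LSC D)
  obtain ⟨c, hc⟩ := exists_injective_nat Y
  -- the sequence of locally constant sections
  have hroot : Inv φ F (fun _ => []) := by
    refine ⟨IsLocallyConstant.const _, fun w => ?_⟩
    have h := (hFΦ ((⟨[]⟩ : Node Y), w)).1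
    rcases h with ⟨g, hg, hgF⟩ | h
    · have : g = g0 := hg
      subst this
      have := D.g0s w
      rw [hgF] at this
      exact this
    · exact absurd h id
  have hstep : ∀ (m : ℕ) (s : {s : Y → List (Y × ℕ × ℕ) // Inv φ F s}),
      ∃ s' : {s : Y → List (Y × ℕ × ℕ) // Inv φ F s}, ∃ W, StepRel φ F c m s.1 s'.1 W := by
    rintro m ⟨s, hs⟩
    obtain ⟨s', W, h1, h2⟩ := exists_step D F hF hFΦ c hc m s hs
    exact ⟨⟨s', h1⟩, W, h2⟩
  choose nxt hnxt using hstep
  choose Wf hWf using hnxt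
  let S : ℕ → {s : Y → List (Y × ℕ × ℕ) // Inv φ F s} := fun m =>
    Nat.rec ⟨fun _ => [], hroot⟩ (fun m s => nxt m s) m
  have hS1 : ∀ m, S (m + 1) = nxt m (S m) := fun m => rfl
  let W : ℕ → Set Y := fun m => Wf m (S m)
  have hrel : ∀ m, StepRel φ F c m (S m).1 (S (m + 1)).1 (W m) := by
    intro m
    rw [hS1]
    exact hWf m (S m)
  -- monotonicity
  have hmono1 : ∀ m w, (S m).1 w <:+ (S (m + 1)).1 w := by
    intro m w
    by_cases hw : w ∈ W m
    · obtain ⟨y, l, k, _, h⟩ := (hrel m).2.2.2.1 w hw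
      rw [h]; exact List.suffix_cons _ _
    · rw [(hrel m).2.2.1 w hw]
  have hmono : ∀ m m' w, m ≤ m' → (S m).1 w <:+ (S m').1 w := by
    intro m m' w h
    induction h with
    | refl => exact List.suffix_refl _
    | step _ ih => exact ih.trans (hmono1 _ w)
  -- stabilisation
  have hstab : ∀ w m, c w + 1 ≤ m → (S m).1 w = (S (c w + 1)).1 w := by
    intro w m h
    induction h with
    | refl => rfl
    | @step m h ih =>
      rw [(hrel m).2.2.1 w, ih]
      exact (hrel m).2.1 w h
  let sinf : Y → List (Y × ℕ × ℕ) := fun w => (S (c w + 1)).1 w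
  have hsinf : ∀ w m, (S m).1 w <:+ sinf w := by
    intro w m
    rcases le_total m (c w + 1) with h | h
    · exact hmono m _ w h
    · rw [hstab w m h]
  -- if a child of `S m w` is below `sinf w` then it was added at the stage of its centre
  have hchild : ∀ (w : Y) (m : ℕ) (y : Y) (l k : ℕ) (t : List (Y × ℕ × ℕ)), (S m).1 w = t →
      ((y, l, k) :: t) <:+ sinf w → m ≤ c y ∧ w ∈ W (c y) := by
    intro w m y l k t ht hsuf
    -- find the first stage after `m` where the value changes
    have hex : ∃ j, m ≤ j ∧ (S (j + 1)).1 w ≠ t := by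
      by_contra hcon
      push Not at hcon
      have h1 : (S (max m (c w + 1) + 1)).1 w = t := hcon _ (le_max_left _ _)
      have h2 : (S (max m (c w + 1) + 1)).1 w = sinf w :=
        hstab w _ (le_trans (le_max_right _ _) (Nat.le_succ _))
      rw [← h2, h1] at hsuf
      have := hsuf.length_le
      simp at this
    obtain ⟨hj1, hj2⟩ := Nat.find_spec hex
    have hjmin : ∀ i, i < Nat.find hex → ¬ (m ≤ i ∧ (S (i + 1)).1 w ≠ t) :=
      fun i hi => Nat.find_min hex hi
    set j := Nat.find hex with hj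
    have hjt : (S j).1 w = t := by
      rcases Nat.eq_or_lt_of_le hj1 with h | h
      · rw [← h]; exact ht
      · obtain ⟨i, hi⟩ : ∃ i, j = i + 1 := ⟨j - 1, by omega⟩
        have := hjmin i (by omega)
        push Not at this
        rw [hi]
        exact this (by omega)
    have hwW : w ∈ W j := by
      by_contra hcon
      exact hj2 (by rw [(hrel j).2.2.1 w hcon, hjt])
    obtain ⟨y', l', k', hy', hS'⟩ := (hrel j).2.2.2.1 w hwW
    rw [hjt] at hS'
    have h3 : ((y', l', k') :: t) <:+ sinf w := by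
      have := hsinf w (j + 1)
      rw [hS'] at this
      exact this
    have h4 : ((y, l, k) :: t) = ((y', l', k') :: t) := by
      rcases List.suffix_or_suffix_of_suffix hsuf h3 with h | h
      · exact h.eq_of_length_le (by simp)
      · exact (h.eq_of_length_le (by simp)).symm
    have h5 : y = y' := by
      have := (List.cons.inj h4).1
      simp only [Prod.mk.injEq] at this
      exact this.1
    subst h5
    rw [hy']
    exact ⟨hj1, hwW⟩
  -- continuity of the section
  have hcont : Continuous (fun w => (⟨sinf w⟩ : Node Y)) := by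
    rw [continuous_iff_continuousAt]
    intro w0
    apply Node.continuousAt_of_wedge
    intro r
    change ∀ᶠ w in 𝓝 w0, (r <:+ sinf w ↔ r <:+ sinf w0)
    set m0 := c w0 + 1 with hm0
    have hV0 : ∀ᶠ w in 𝓝 w0, (S m0).1 w = (S m0).1 w0 := (S m0).2.1.eventually_eq w0
    have hs0 : (S m0).1 w0 = sinf w0 := rfl
    by_cases hr : r <:+ sinf w0
    · filter_upwards [hV0] with w hw
      refine ⟨fun _ => hr, fun _ => ?_⟩
      have := hsinf w m0
      rw [hw, hs0] at this
      exact hr.trans this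
    · by_cases hchain : ∃ y l k, ((y, l, k) :: sinf w0) <:+ r
      · obtain ⟨y, l, k, hyr⟩ := hchain
        by_cases hmy : m0 ≤ c y
        · have hW0 : w0 ∉ W (c y) := (hrel (c y)).2.1 w0 (by omega)
          filter_upwards [hV0, (hrel (c y)).1.isOpen_compl.mem_nhds hW0] with w hw hwW
          refine ⟨fun h => ?_, fun h => absurd h hr⟩
          exact absurd (hchild w m0 y l k (sinf w0) (by rw [hw]) (hyr.trans h)).2 hwW
        · filter_upwards [hV0] with w hw
          refine ⟨fun h => ?_, fun h => absurd h hr⟩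
          exact absurd (hchild w m0 y l k (sinf w0) (by rw [hw]) (hyr.trans h)).1 hmy
      · filter_upwards [hV0] with w hw
        refine ⟨fun h => ?_, fun h => absurd h hr⟩
        exfalso
        have h1 : sinf w0 <:+ sinf w := by
          have := hsinf w m0
          rw [hw, hs0] at this
          exact this
        rcases List.suffix_or_suffix_of_suffix h h1 with h2 | h2
        · exact hr h2
        · -- `sinf w0` is a proper suffix of `r`
          apply hchain
          obtain ⟨q, hq⟩ := h2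
          rcases List.eq_nil_or_concat q with hq0 | ⟨q', a, hq0⟩
          · exfalso
            rw [hq0, List.nil_append] at hq
            exact hr (by rw [hq])
          · obtain ⟨y, l, k⟩ := a
            refine ⟨y, l, k, q', ?_⟩
            rw [← hq, hq0]
            simp
  refine ⟨fun w => F (⟨sinf w⟩, w), hF.comp (hcont.prodMk continuous_id), fun y => ?_⟩
  exact (hrel (c y)).2.2.2.2 y rfl

/-- **Answer to Q1 (negated form).** Every Frechet (`T₁`) C-selective space is strongly
C-selective. (The universes `v`, `w` of the countable test spaces are arbitrary.) -/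
theorem result (X : Type u) [TopologicalSpace X] [T1Space X] [FrechetUrysohnSpace X]
    (hC : CSelective.{u, v} X) : StronglyCSelective.{u, w} X :=
  StronglyCSelective.up (main hC.down)

end Pool.Agent.Results.MP_f865b7_gt.FrechetCSelective
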